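import Pool.Agent.H90.STK.Stmts

/-!
# Sticky families of lines: the core (module COR)
-/

set_option autoImplicit false

namespace Pool.STK

open Finset Real MeasureTheory
open Pool.Agent.H49.Ent Pool.Agent.H32.Dense

theorem cor_thm (hCR1 : CR1Stmt) (hAVG : AVGStmt) (hTHS : THSStmt) (hPIG : PIGStmt)
    (hTH0 : TH0Stmt) (hSPC : SPCStmt) (hINT : INTStmt) : CORStmt := by
  intro m a R η ε ε₁ N k Ω ζ _ p u d Z hp hd ha hN hG1 hG2 hε hε2 hS hmax
  have ha0 : 0 < a := by linarith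
  have hI := hINT m Ω ζ p u d hp
  have hI2 := hINT m Ω (((Fin m → ℤ) × (Fin m → ℤ)) × ζ) p u d hp
  -- integrability of `II`
  have hII : ∀ r : ℕ, IntervalIntegrable (fun t => II p u d Z k r t) volume 0 1 := by
    intro r
    unfold II
    exact (hI.2 Z ((r + 1) * k) (r * k) 0 1).sub (hI2.1 (bb u d Z k r) ((r + 1) * k) 0 1)
  have hc : ∀ c : ℝ, IntervalIntegrable (fun _ : ℝ => c) volume 0 1 := fun c =>
    intervalIntegrable_const
  obtain ⟨hv, hsum⟩ := hCR1 m a R η ε ε₁ N k Ω ζ p u d Z hp hd ha.le hN hG1 hε hS hmax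
  have havg := hAVG m a R η ε ε₁ N k Ω ζ p u d Z hp hd ha.le hN hG2 hS hε2
  have hths := hTHS m N k Ω ζ p u d Z hp
  -- the integral of `II + cc`
  have hIc : ∀ r : ℕ, (∫ t in (0 : ℝ)..1, (II p u d Z k r t + cc m)) =
      (∫ t in (0 : ℝ)..1, II p u d Z k r t) + cc m := by
    intro r
    rw [intervalIntegral.integral_add (hII r) (hc _)]
    simp
  have hI3 : ∀ r : ℕ, (∫ t in (0 : ℝ)..1, (II p u d Z k r t + 3 * cc m)) =
      (∫ t in (0 : ℝ)..1, II p u d Z k r t) + 3 * cc m := by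
    intro r
    rw [intervalIntegral.integral_add (hII r) (hc _)]
    simp
  have hI0 : ∀ r : ℕ, 0 ≤ ∫ t in (0 : ℝ)..1, (II p u d Z k r t + cc m) := by
    intro r
    apply intervalIntegral.integral_nonneg zero_le_one
    intro t ht
    have := hSPC m Ω ζ p u d Z hp k r t ht.1 ht.2
    linarith
  have hq : (∫ t in (0 : ℝ)..1, qq p u d Z k N t) =
      ∑ r ∈ Finset.range N, (∫ t in (0 : ℝ)..1, (II p u d Z k r t + cc m)) + 2 * N * cc m := by
    unfold qq
    rw [intervalIntegral.integral_finsetSum (fun r _ => (hII r).add (hc _))]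
    rw [Finset.sum_congr rfl (fun r _ => hI3 r), Finset.sum_congr rfl (fun r _ => hIc r)]
    rw [Finset.sum_add_distrib, Finset.sum_add_distrib]
    simp only [Finset.sum_const, Finset.card_range, nsmul_eq_mul]
    ring
  set S1 : ℝ := ∑ r ∈ Finset.range N, ((R + η) * k + a * cc m - vv a p u d Z k r) with hS1
  set S2 : ℝ := ∑ r ∈ Finset.range N, (∫ t in (0 : ℝ)..1, (II p u d Z k r t + cc m)) with hS2
  set Ib : ℝ := (2 ^ k)⁻¹ * ∑ w ∈ Finset.range (2 ^ k), Iw p u d Z k N ((w : ℝ) / 2 ^ k) with hIb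
  have hS10 : 0 ≤ S1 := by
    apply Finset.sum_nonneg
    intro r hr
    have := hv r (Finset.mem_range.1 hr)
    linarith
  have hS20 : 0 ≤ S2 := Finset.sum_nonneg fun r _ => hI0 r
  have haS2 : a * S2 ≤ BB m a η ε N k := by linarith
  have hS2' : S2 ≤ BB m a η ε N k / a := by
    rw [le_div_iff₀ ha0]; linarith
  have hIb2 : (a - 1) * Ib ≤ B2 m a η ε N k := by
    rw [hq] at havg
    unfold B2
    nlinarith [havg, hmax, haS2]
  have hIb3 : Ib ≤ B2 m a η ε N k / (a - 1) := by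
    rw [le_div_iff₀ (by linarith)]; linarith
  have hth : ∑ r ∈ Finset.range N, ∫ t in (0 : ℝ)..1, th p u d Z k r t ≤ B3 m a η ε N k := by
    rw [hq] at hths
    unfold B3
    have h1 : (BB m a η ε N k + 2 * a * N * cc m) / a = BB m a η ε N k / a + 2 * N * cc m := by
      field_simp
    rw [h1]
    linarith
  obtain ⟨r, hr, hx, hy⟩ := hPIG N (fun r => (R + η) * k + a * cc m - vv a p u d Z k r)
    (fun r => ∫ t in (0 : ℝ)..1, th p u d Z k r t) (BB m a η ε N k) (B3 m a η ε N k) hN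
    (fun r hr => by have := hv r hr; linarith)
    (fun r _ => intervalIntegral.integral_nonneg zero_le_one
      (fun t _ => hTH0 m Ω ζ p u d Z hp k r t))
    (by
      have : 0 ≤ a * S2 := mul_nonneg ha0.le hS20
      linarith) hth
  exact ⟨r, hr, by linarith, hy⟩

end Pool.STK
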