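import Pool.Agent.H90.STK.Stmts

/-!
# Sticky families of lines: the iteration (module ITR)
-/

set_option autoImplicit false

namespace Pool.STK

open Finset Real MeasureTheory
open Pool.Agent.H49.Ent Pool.Agent.H32.Dense

namespace ITR

/-- Entropy of a bounded pair of integer vectors. -/
theorem H_le_of_bdd {m : ℕ} {Ω : Type} [Fintype Ω] {p : Ω → ℝ} (hp : IsLaw p)
    (A : Ω → (Fin m → ℤ) × (Fin m → ℤ)) (M : ℝ) (hM : 1 ≤ M) (hA : Bdd A M) :
    H p A ≤ 2 * m * Real.log (2 * M + 1) := by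
  classical
  set K : ℤ := ⌊M⌋ with hK
  have hK0 : 0 ≤ K := Int.floor_nonneg.2 (by linarith)
  set F : Finset ((Fin m → ℤ) × (Fin m → ℤ)) :=
    (Fintype.piFinset fun _ => Finset.Icc (-K) K) ×ˢ (Fintype.piFinset fun _ => Finset.Icc (-K) K)
    with hF
  have hmem : ∀ x : ℤ, |(x : ℝ)| ≤ M → x ∈ Finset.Icc (-K) K := by
    intro x hx
    rw [abs_le] at hx
    rw [Finset.mem_Icc]
    constructor
    · have : -x ≤ K := by
        rw [hK, Int.le_floor]; push_cast; linarith
      linarith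
    · rw [hK, Int.le_floor]; exact hx.2
  have h1 : H p A ≤ Real.log F.card := by
    refine H_le_log_card hp.nonneg hp.sum_one A F (fun ω _ => ?_)
    rw [hF, Finset.mem_product, Fintype.mem_piFinset, Fintype.mem_piFinset]
    exact ⟨fun i => hmem _ (hA ω i).1, fun i => hmem _ (hA ω i).2⟩
  refine h1.trans ?_
  have hcard : (F.card : ℝ) = (2 * (K : ℝ) + 1) ^ (2 * m) := by
    rw [hF, Finset.card_product, Fintype.card_piFinset]
    simp only [Int.card_Icc, Finset.prod_const, Finset.card_univ, Fintype.card_fin]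
    have h2 : ((K + 1 - -K).toNat : ℝ) = 2 * (K : ℝ) + 1 := by
      have h3 : (((K + 1 - -K).toNat : ℤ) : ℝ) = 2 * (K : ℝ) + 1 := by
        rw [Int.toNat_of_nonneg (by linarith)]
        push_cast; ring
      exact_mod_cast h3
    push_cast
    rw [h2, two_mul m, pow_add]
  rw [hcard, Real.log_pow]
  push_cast
  have hKM : (K : ℝ) ≤ M := Int.floor_le M
  have hK0' : (0 : ℝ) ≤ K := by exact_mod_cast hK0
  apply mul_le_mul_of_nonneg_left _ (by positivity)
  exact Real.log_le_log (by linarith) (by linarith)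

end ITR

theorem itr_thm (hKEY : KEYStmt) (hTAP : TAPStmt) (hCTH : CTHStmt) : ITRStmt := by
  intro m k₀ hk Ω₀ _ p₀ x h σ hp₀ hσ S
  have hk1 : (3 : ℝ) ≤ k₀ := by exact_mod_cast hk
  induction S with
  | zero =>
    intro Ω _ p A M C hp hM hA hC hctl hh hlog
    have := ITR.H_le_of_bdd hp A M hM hA
    simp only [pow_zero, one_mul, Nat.cast_zero, zero_mul, add_zero] at hlog
    linarith
  | succ S ih =>
    intro Ω _ p A M C hp hM hA hC hctl hh hlog
    obtain ⟨hTl, hTc, hTh, hTb, hK1⟩ := hTAP m k₀ Ω₀ Ω p₀ p A hp₀ hp hk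
    have hKpow : ∀ n : ℕ, 1 ≤ Kc k₀ ^ n := fun n => one_le_pow₀ hK1
    by_cases hcase : H (prd p) (TA k₀ A) - H p A ≤ σ
    · have key := hKEY m k₀ Ω p A hp hk
      have h1 : H p (fun ω => (A ω).2) ≤ H p A := H_comp_le hp.nonneg A Prod.snd
      have h2 : ∑ j ∈ Finset.range k₀, H p (fun ω => ev j (A ω)) ≤
          ∑ j ∈ Finset.range k₀, (H p₀ (x j) + Kc k₀ ^ (S + 1) * C j) := by
        apply Finset.sum_le_sum
        intro j hj
        have h3 := hCTH Ω₀ Ω (Fin m → ℤ) p₀ p (x j) (fun ω => ev j (A ω)) (C j) hp₀ hp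
          (hctl j (Finset.mem_range.1 hj))
        have h4 : C j ≤ Kc k₀ ^ (S + 1) * C j := le_mul_of_one_le_left (hC j) (hKpow _)
        linarith
      have h5 : ((k₀ : ℝ) - 1) * (H (prd p) (TA k₀ A) - H p A) ≤ ((k₀ : ℝ) - 1) * σ :=
        mul_le_mul_of_nonneg_left hcase (by linarith)
      have h6 : ((k₀ : ℝ) - 2) * h ≤ ((k₀ : ℝ) - 2) * H p (fun ω => (A ω).2) :=
        mul_le_mul_of_nonneg_left hh (by linarith)
      nlinarith
    · push Not at hcase
      have h0 : (0 : ℝ) ≤ Kc k₀ := by linarith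
      have hM' : 1 ≤ Kc k₀ * M := by nlinarith
      have hr := ih (Fin (k₀ - 1) × Fin k₀ → Ω) (prd p) (TA k₀ A) (Kc k₀ * M)
        (fun j => Kc k₀ * C j) hTl hM' (hTb M hA) (fun j => mul_nonneg h0 (hC j))
        (fun j hj => hTc (x j) (C j) j (hctl j hj)) (hh.trans hTh) (by
          have e1 : Kc k₀ ^ S * (Kc k₀ * M) = Kc k₀ ^ (S + 1) * M := by ring
          rw [e1]
          push_cast at hlog
          linarith)
      have e2 : ∀ j, Kc k₀ ^ S * (Kc k₀ * C j) = Kc k₀ ^ (S + 1) * C j := fun j => by ring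
      simpa only [e2] using hr

end Pool.STK
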